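import Pool.Agent.R93.Theta.Dual

set_option autoImplicit false

/-!
# Lovasz theta of generalized Mycielskians (MP_8a180b_co)

For every `r ≥ 1` the complementary theta number of the generalized Mycielskian `M_r(G)` is a
function of the complementary theta number of `G` only.

Idea. A value `T` is attained by a dual orthonormal representation iff there is a positive
semidefinite kernel `X` with `X v v = T - 1` and `X v w = -1` on edges (`isValue_iff`).  Let
`t` be the complementary theta number of `G`, with primal optimum `X` and dual optimum `W`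
(positive semidefinite, supported on the diagonal and the edges, trace `1`, total sum `t`).  The
entrywise product `W ∘ X = t diag(W) - W` is positive semidefinite.  If `Z` is a kernel for
`M_r(G)` with value `s`, then the averages `A i j = ∑ W v w Z (v,i) (w,j) / t` and
`B i j = ∑ W v v Z (v,i) (v,j) - A i j` solve a small semidefinite system `Small t r s`, and conversely
a solution `A, B` of the small system gives the kernel `A + (t-1)⁻¹ B ⊗ X` for `M_r(G)`.
-/

namespace Pool.Agent.Results.MP_8a180b_co.Determined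

open Finset Pool.Agent.R93.Theta

/-- `IsValue G T`: there are a dual orthonormal representation `u` of `G` (unit vectors in some
`ℝ^d`, orthogonal on the edges of `G`) and a unit vector `c` with
`max_i 1 / ⟨c, u_i⟩ ^ 2 = T` (in particular all `⟨c, u_i⟩` are nonzero). -/
def IsValue {V : Type} [Fintype V] [Nonempty V] (G : SimpleGraph V) (T : ℝ) : Prop :=
  ∃ (d : ℕ) (u : V → EuclideanSpace ℝ (Fin d)) (c : EuclideanSpace ℝ (Fin d)),
    (∀ i, ‖u i‖ = 1) ∧ ‖c‖ = 1 ∧ (∀ i j, G.Adj i j → inner ℝ (u i) (u j) = 0) ∧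
    (∀ i, inner ℝ c (u i) ≠ 0) ∧
    T = Finset.univ.sup' Finset.univ_nonempty (fun i => 1 / (inner ℝ c (u i)) ^ 2)

/-- The complementary theta number (the Lovasz theta number of the complement); `result` shows that
the infimum is a minimum. -/
noncomputable def thetaBar {V : Type} [Fintype V] [Nonempty V] (G : SimpleGraph V) : ℝ :=
  sInf {T | IsValue G T}


/-- Adjacency (with the loop at `0`) of the path `P_r` with vertices `0, …, r`. -/
def PathAdj {r : ℕ} (i j : Fin (r + 1)) : Prop :=
  (i : ℕ) + 1 = j ∨ (j : ℕ) + 1 = i ∨ ((i : ℕ) = 0 ∧ (j : ℕ) = 0)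

/-- The identification map: all vertices `(v, r)` go to `none`. -/
def glue {V : Type*} (r : ℕ) (p : V × Fin (r + 1)) : Option (V × Fin r) :=
  if h : (p.2 : ℕ) < r then some (p.1, ⟨p.2, h⟩) else none

/-- The generalized Mycielskian `M_r(G)`: the image of the categorical product `G × P_r` when all
vertices `(v, r)` are identified. -/
def genMycielskian {V : Type*} (r : ℕ) (G : SimpleGraph V) : SimpleGraph (Option (V × Fin r)) where
  Adj a b := a ≠ b ∧ ∃ p q : V × Fin (r + 1), glue r p = a ∧ glue r q = b ∧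
    G.Adj p.1 q.1 ∧ PathAdj p.2 q.2
  symm := ⟨fun a b ⟨hab, p, q, hp, hq, h1, h2⟩ =>
    ⟨hab.symm, q, p, hq, hp, h1.symm, by
      rcases h2 with h | h | h
      · exact Or.inr (Or.inl h)
      · exact Or.inl h
      · exact Or.inr (Or.inr ⟨h.2, h.1⟩)⟩⟩
  loopless := ⟨fun a h => h.1 rfl⟩

variable {V : Type}

theorem glue_lt {r : ℕ} {p : V × Fin (r + 1)} (h : (p.2 : ℕ) < r) :
    glue r p = some (p.1, ⟨p.2, h⟩) := by
  simp [glue, h]

theorem glue_not_lt {r : ℕ} {p : V × Fin (r + 1)} (h : ¬ (p.2 : ℕ) < r) :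
    glue r p = none := by
  simp [glue, h]

theorem adj_glue {r : ℕ} (hr : 1 ≤ r) {G : SimpleGraph V} {v w : V} {i j : Fin (r + 1)}
    (h : G.Adj v w) (hij : PathAdj i j) :
    (genMycielskian r G).Adj (glue r (v, i)) (glue r (w, j)) := by
  refine ⟨?_, (v, i), (w, j), rfl, rfl, h, hij⟩
  intro he
  by_cases hi : (i : ℕ) < r
  · rw [glue_lt (p := (v, i)) hi] at he
    by_cases hj : (j : ℕ) < r
    · rw [glue_lt (p := (w, j)) hj] at he
      simp only [Option.some.injEq, Prod.mk.injEq] at he
      exact h.ne he.1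
    · rw [glue_not_lt (p := (w, j)) hj] at he
      exact absurd he (by simp)
  · rw [glue_not_lt (p := (v, i)) hi] at he
    by_cases hj : (j : ℕ) < r
    · rw [glue_lt (p := (w, j)) hj] at he
      exact absurd he (by simp)
    · have h1 := i.2
      have h2 := j.2
      rcases hij with h | h | h <;> omega

/-- The small semidefinite system that decides feasibility for the generalized Mycielskian. -/
def Small (t : ℝ) (r : ℕ) (s : ℝ) : Prop :=
  ∃ A B : Fin (r + 1) → Fin (r + 1) → ℝ, PSD A ∧ PSD B ∧ (∀ i, A i i + B i i = s - 1) ∧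
    B (Fin.last r) (Fin.last r) = 0 ∧ ∀ i j, PathAdj i j → A i j - B i j / (t - 1) = -1

/-- The level of a vertex of the generalized Mycielskian. -/
def lvl {r : ℕ} : Option (V × Fin r) → Fin (r + 1)
  | some p => p.2.castSucc
  | none => Fin.last r

theorem lvl_glue {r : ℕ} (p : V × Fin (r + 1)) : lvl (glue r p) = p.2 := by
  by_cases h : (p.2 : ℕ) < r
  · rw [glue_lt h]
    ext
    simp [lvl]
  · rw [glue_not_lt h]
    ext
    have := p.2.2
    simp [lvl]
    omega

variable [Fintype V]

theorem feas_of_small {r : ℕ} {G : SimpleGraph V} {t s : ℝ} (ht : 1 < t)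
    (hG : Feas G t) (hS : Small t r s) [Nonempty V] : Feas (genMycielskian r G) s := by
  obtain ⟨X, hX, hd, he⟩ := hG
  obtain ⟨A, B, hA, hB, hAB, hBr, hE⟩ := hS
  have ht1 : t - 1 ≠ 0 := by linarith
  set v0 : V := Classical.arbitrary V
  let vtx : Option (V × Fin r) → V := fun a => a.elim v0 Prod.fst
  refine ⟨fun a b => A (lvl a) (lvl b) + B (lvl a) (lvl b) * ((t - 1)⁻¹ * X (vtx a) (vtx b)),
    (hA.comp lvl).add ((hB.comp lvl).mul ((hX.comp vtx).smul
      (inv_nonneg.2 (by linarith)))), fun a => ?_, ?_⟩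
  · show A (lvl a) (lvl a) + B (lvl a) (lvl a) * ((t - 1)⁻¹ * X (vtx a) (vtx a)) = s - 1
    rw [hd, inv_mul_cancel₀ ht1, mul_one, hAB]
  · rintro a b ⟨hab, p, q, rfl, rfl, hpq, hij⟩
    show A (lvl (glue r p)) (lvl (glue r q)) + B (lvl (glue r p)) (lvl (glue r q)) *
      ((t - 1)⁻¹ * X (vtx (glue r p)) (vtx (glue r q))) = -1
    rw [lvl_glue, lvl_glue]
    have h1 := hE p.2 q.2 hij
    by_cases hp : (p.2 : ℕ) < r
    · by_cases hq : (q.2 : ℕ) < r
      · have h2 : vtx (glue r p) = p.1 := by rw [glue_lt hp]; rfl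
        have h3 : vtx (glue r q) = q.1 := by rw [glue_lt hq]; rfl
        rw [h2, h3, he _ _ hpq]
        rw [div_eq_mul_inv] at h1
        linarith
      · have h4 : q.2 = Fin.last r := by
          ext; simp; have := q.2.2; omega
        have h5 : B p.2 q.2 = 0 := by
          rw [h4]
          exact hB.zero_row hBr _
        rw [h5] at h1 ⊢
        simp at h1 ⊢
        exact h1
    · have h4 : p.2 = Fin.last r := by
        ext; simp; have := p.2.2; omega
      have h5 : B p.2 q.2 = 0 := by
        rw [hB.1, h4]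
        exact hB.zero_row hBr _
      rw [h5] at h1 ⊢
      simp at h1 ⊢
      exact h1

theorem small_of_feas {r : ℕ} (hr : 1 ≤ r) {G : SimpleGraph V} {t s : ℝ} (ht : 1 < t)
    [Nonempty V] (hG : IsLeast {T | Feas G T} t) (hF : Feas (genMycielskian r G) s) :
    Small t r s := by
  classical
  obtain ⟨W, hW, hs, htr, hsum⟩ := exists_dual G hG
  obtain ⟨X, hX, hd, he⟩ := hG.1
  obtain ⟨Z, hZ, hZd, hZe⟩ := hF
  have ht0 : t ≠ 0 := by linarith
  have ht1 : t - 1 ≠ 0 := by linarith
  -- the kernel `R = (diag W) - W / t`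
  have hWX : ∀ v w, W v w * X v w = (if v = w then t * W v v else 0) - W v w := by
    intro v w
    by_cases h : v = w
    · subst h
      rw [hd]
      simp
      ring
    · by_cases h' : G.Adj v w
      · rw [he v w h', if_neg h]
        ring
      · rw [hs v w h h', if_neg h]
        ring
  have hR : PSD (fun v w => (if v = w then W v v else 0) - t⁻¹ * W v w) := by
    have := (hW.mul hX).smul (a := t⁻¹) (inv_nonneg.2 (by linarith))
    refine (?_ : (fun v w => (if v = w then W v v else 0) - t⁻¹ * W v w) =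
      fun i j => t⁻¹ * (W i j * X i j)) ▸ this
    funext v w
    rw [hWX]
    by_cases h : v = w
    · simp [h, mul_sub, ht0]
    · simp [h]
  have hZ' := hZ.comp (glue r : V × Fin (r + 1) → _)
  have hA := (hW.smul (a := t⁻¹) (inv_nonneg.2 (by linarith))).contract hZ'
  have hB := hR.contract hZ'
  refine ⟨_, _, hA, hB, fun i => ?_, ?_, fun i j hij => ?_⟩
  · simp only [← Finset.sum_add_distrib, ← add_mul]
    have h1 : ∀ v w, (t⁻¹ * W v w + ((if v = w then W v v else 0) - t⁻¹ * W v w)) *
        Z (glue r (v, i)) (glue r (w, i)) = if v = w then W v v * (s - 1) else 0 := by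
      intro v w
      by_cases h : v = w
      · subst h
        simp only [if_true]
        rw [hZd]
        ring
      · simp [h]
    simp only [h1, Finset.sum_ite_eq, Finset.mem_univ, if_true]
    rw [← Finset.sum_mul, htr, one_mul]
  · have h1 : ∀ v : V, glue r (v, Fin.last r) = none := fun v => glue_not_lt (by simp)
    simp only [h1, hZd]
    simp only [← Finset.sum_mul, Finset.sum_sub_distrib, Finset.sum_ite_eq, Finset.mem_univ,
      if_true, ← Finset.mul_sum]
    rw [htr, hsum, inv_mul_cancel₀ ht0]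
    ring
  · -- edges
    have hoff : ∀ v w, v ≠ w → W v w * Z (glue r (v, i)) (glue r (w, j)) = - W v w := by
      intro v w hvw
      by_cases h : G.Adj v w
      · rw [hZe _ _ (adj_glue hr h hij)]
        ring
      · rw [hs v w hvw h]
        ring
    set S := ∑ v, ∑ w, W v w * Z (glue r (v, i)) (glue r (w, j)) with hS
    set M := ∑ v, W v v * Z (glue r (v, i)) (glue r (v, j)) with hM
    have e1 : ∑ v, ∑ w, t⁻¹ * W v w * Z (glue r (v, i)) (glue r (w, j)) = t⁻¹ * S := by
      rw [hS, Finset.mul_sum]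
      refine Finset.sum_congr rfl fun v _ => ?_
      rw [Finset.mul_sum]
      exact Finset.sum_congr rfl fun w _ => by ring
    have e2 : ∑ v, ∑ w, ((if v = w then W v v else 0) - t⁻¹ * W v w) *
        Z (glue r (v, i)) (glue r (w, j)) = M - t⁻¹ * S := by
      rw [← e1, hM, ← Finset.sum_sub_distrib]
      refine Finset.sum_congr rfl fun v _ => ?_
      simp only [sub_mul, Finset.sum_sub_distrib, ite_mul, zero_mul, Finset.sum_ite_eq,
        Finset.mem_univ, if_true]
    have e3 : S - M = -(t - 1) := by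
      have h2 : ∀ v w, W v w * Z (glue r (v, i)) (glue r (w, j)) =
          (if v = w then W v v * Z (glue r (v, i)) (glue r (v, j)) + W v v else 0) - W v w := by
        intro v w
        by_cases h : v = w
        · subst h
          simp
        · rw [hoff v w h]
          simp [h]
      rw [hS, Finset.sum_congr rfl fun v _ => Finset.sum_congr rfl fun w _ => h2 v w]
      simp only [Finset.sum_sub_distrib, Finset.sum_ite_eq, Finset.mem_univ, if_true,
        Finset.sum_add_distrib]
      rw [← hM, htr, hsum]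
      ring
    rw [e1, e2]
    have e4 : S = M - (t - 1) := by linarith
    rw [e4]
    field_simp
    ring


/-! ### Representations -/

theorem psd_gram {d : ℕ} {ι : Type*} [Fintype ι] (y : ι → EuclideanSpace ℝ (Fin d)) :
    PSD (fun i j => (inner ℝ (y i) (y j) : ℝ)) := by
  refine psd_of_factor (K := Fin d) (fun k i => y i k) fun i j => ?_
  simp [PiLp.inner_apply, mul_comm]

theorem isValue_iff [Nonempty V] (G : SimpleGraph V) (T : ℝ) : IsValue G T ↔ Feas G T := by
  classical
  constructor
  · rintro ⟨d, u, c, hu, hc, horth, hne, hT⟩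
    have hle : ∀ v, 1 / (inner ℝ c (u v)) ^ 2 ≤ T := by
      intro v
      rw [hT]
      exact Finset.le_sup' (fun i => 1 / (inner ℝ c (u i)) ^ 2) (Finset.mem_univ v)
    set a : V → ℝ := fun v => inner ℝ c (u v) with ha
    have hcomp : ∀ v w, (inner ℝ ((a v)⁻¹ • u v - c) ((a w)⁻¹ • u w - c) : ℝ) =
        (a v)⁻¹ * (a w)⁻¹ * inner ℝ (u v) (u w) - 1 := by
      intro v w
      rw [inner_sub_left, inner_sub_right, inner_sub_right, real_inner_smul_left,
        real_inner_smul_right, real_inner_smul_left, real_inner_smul_right,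
        real_inner_self_eq_norm_sq, hc, real_inner_comm c (u v)]
      have h1 : (a v)⁻¹ * inner ℝ c (u v) = 1 := inv_mul_cancel₀ (hne v)
      have h2 : (a w)⁻¹ * inner ℝ c (u w) = 1 := inv_mul_cancel₀ (hne w)
      rw [h1, h2]
      ring
    refine ⟨fun v w => inner ℝ ((a v)⁻¹ • u v - c) ((a w)⁻¹ • u w - c) +
      (if v = w then T - 1 / (a v) ^ 2 else 0),
      (psd_gram fun v => (a v)⁻¹ • u v - c).add (psd_delta fun v => by
        have := hle v
        simp only [ha]
        linarith), fun v => ?_, fun v w hvw => ?_⟩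
    · have h0 : a v ≠ 0 := hne v
      show (inner ℝ ((a v)⁻¹ • u v - c) ((a v)⁻¹ • u v - c) : ℝ) +
        (if v = v then T - 1 / (a v) ^ 2 else 0) = T - 1
      rw [hcomp, real_inner_self_eq_norm_sq, hu, if_pos rfl]
      field_simp
      ring
    · show (inner ℝ ((a v)⁻¹ • u v - c) ((a w)⁻¹ • u w - c) : ℝ) +
        (if v = w then T - 1 / (a v) ^ 2 else 0) = -1
      rw [hcomp, horth v w hvw, if_neg hvw.ne]
      ring
  · intro hF
    have hT1 := hF.one_le
    obtain ⟨X, hX, hd, he⟩ := hF
    obtain ⟨m, b, hb⟩ := hX.factor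
    have hT0 : 0 < T := by linarith
    have hs : 0 < Real.sqrt T := Real.sqrt_pos.2 hT0
    have hs2 : Real.sqrt T * Real.sqrt T = T := Real.mul_self_sqrt hT0.le
    set y : V → EuclideanSpace ℝ (Fin (m + 1)) := fun v =>
      WithLp.toLp 2 (Fin.cons 1 (fun k => b k v)) with hy
    set c : EuclideanSpace ℝ (Fin (m + 1)) := WithLp.toLp 2 (Fin.cons 1 (fun _ => 0)) with hc
    have hyy : ∀ v w, (inner ℝ (y v) (y w) : ℝ) = 1 + X v w := by
      intro v w
      rw [hb]
      simp [hy, PiLp.inner_apply, Fin.sum_univ_succ, mul_comm]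
    have hcy : ∀ v, (inner ℝ c (y v) : ℝ) = 1 := by
      intro v
      simp [hy, hc, PiLp.inner_apply, Fin.sum_univ_succ]
    have hip : ∀ x z : Fin (m + 1) → ℝ, (inner ℝ (WithLp.toLp 2 x : EuclideanSpace ℝ (Fin (m + 1)))
        (WithLp.toLp 2 z) : ℝ) = ∑ k, z k * x k := by
      intro x z
      simp [PiLp.inner_apply]
    have hcc : (inner ℝ c c : ℝ) = 1 := by
      rw [hc, hip]
      simp [Fin.sum_univ_succ]
    have hcu : ∀ v, (inner ℝ c ((Real.sqrt T)⁻¹ • y v) : ℝ) = (Real.sqrt T)⁻¹ := by
      intro v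
      rw [real_inner_smul_right, hcy, mul_one]
    refine ⟨m + 1, fun v => (Real.sqrt T)⁻¹ • y v, c, fun v => ?_, ?_, fun v w hvw => ?_,
      fun v => ?_, ?_⟩
    · have h1 : ‖(Real.sqrt T)⁻¹ • y v‖ ^ 2 = 1 := by
        rw [← real_inner_self_eq_norm_sq, real_inner_smul_left, real_inner_smul_right, hyy, hd]
        field_simp
        nlinarith
      exact (pow_eq_one_iff_of_nonneg (norm_nonneg _) two_ne_zero).1 h1
    · have h1 : ‖c‖ ^ 2 = 1 := by rw [← real_inner_self_eq_norm_sq, hcc]
      exact (pow_eq_one_iff_of_nonneg (norm_nonneg _) two_ne_zero).1 h1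
    · show (inner ℝ ((Real.sqrt T)⁻¹ • y v) ((Real.sqrt T)⁻¹ • y w) : ℝ) = 0
      rw [real_inner_smul_left, real_inner_smul_right, hyy, he v w hvw]
      ring
    · show (inner ℝ c ((Real.sqrt T)⁻¹ • y v) : ℝ) ≠ 0
      rw [hcu]
      positivity
    · have h1 : (fun i => 1 / (inner ℝ c ((Real.sqrt T)⁻¹ • y i) : ℝ) ^ 2) = fun _ => T := by
        funext i
        rw [hcu]
        field_simp
        nlinarith
      show T = Finset.univ.sup' Finset.univ_nonempty
        (fun i => 1 / (inner ℝ c ((Real.sqrt T)⁻¹ • y i) : ℝ) ^ 2)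
      rw [h1, Finset.sup'_const]

theorem isLeast_thetaBar [Nonempty V] (G : SimpleGraph V) :
    IsLeast {T | IsValue G T} (thetaBar G) := by
  have h : {T | IsValue G T} = {T | Feas G T} := by
    ext T
    exact isValue_iff G T
  obtain ⟨t, ht⟩ := exists_least G
  rw [← h] at ht
  have : thetaBar G = t := ht.csInf_eq
  rw [this]
  exact ht

/-- The function that gives the complementary theta number of `M_r(G)`. -/
noncomputable def gval (r : ℕ) (t : ℝ) : ℝ :=
  if t = 1 then 1 else sInf {s | Small t r s}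

theorem thetaBar_eq {G : SimpleGraph V} [Nonempty V] : thetaBar G = sInf {T | Feas G T} := by
  have h : {T | IsValue G T} = {T | Feas G T} := by
    ext T
    exact isValue_iff G T
  rw [thetaBar, h]

theorem feasLeast [Nonempty V] (G : SimpleGraph V) : IsLeast {T | Feas G T} (thetaBar G) := by
  obtain ⟨t, ht⟩ := exists_least G
  rw [thetaBar_eq, ht.csInf_eq]
  exact ht

theorem thetaBar_edgeless [Nonempty V] {G : SimpleGraph V} (hG : ∀ v w, ¬ G.Adj v w) :
    thetaBar G = 1 := by
  refine le_antisymm ((feasLeast G).2 ?_) (feasLeast G).1.one_le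
  exact ⟨fun _ _ => 0, ⟨fun _ _ => rfl, fun c => by simp⟩, fun v => by simp,
    fun v w h => absurd h (hG v w)⟩

theorem thetaBar_genMycielskian {r : ℕ} (hr : 1 ≤ r) [Nonempty V] (G : SimpleGraph V) :
    thetaBar (genMycielskian r G) = gval r (thetaBar G) := by
  by_cases hE : ∃ v w, G.Adj v w
  · obtain ⟨v, w, hvw⟩ := hE
    have h2 := (feasLeast G).1.two_le hvw
    have hne : thetaBar G ≠ 1 := by linarith
    have hset : {s | Feas (genMycielskian r G) s} = {s | Small (thetaBar G) r s} := by
      ext s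
      exact ⟨fun h => small_of_feas hr (by linarith) (feasLeast G) h,
        fun h => feas_of_small (by linarith) (feasLeast G).1 h⟩
    rw [thetaBar_eq, hset, gval, if_neg hne]
  · push Not at hE
    rw [thetaBar_edgeless hE, gval, if_pos rfl]
    refine thetaBar_edgeless ?_
    rintro a b ⟨-, p, q, -, -, h, -⟩
    exact hE _ _ h

/-- For every `r ≥ 1` (in particular for every `r ≥ 3`) the complementary theta number of the
generalized Mycielskian `M_r(G)` is determined by the complementary theta number of `G`, for all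
finite nonempty graphs `G`. -/
theorem result :
    (∀ (V : Type) [Fintype V] [Nonempty V] (G : SimpleGraph V),
      IsLeast {T | IsValue G T} (thetaBar G)) ∧
    (∀ r : ℕ, 1 ≤ r → ∀ (V : Type) [Fintype V] [Nonempty V] (G : SimpleGraph V),
      thetaBar (genMycielskian r G) = gval r (thetaBar G)) ∧
    (∀ r : ℕ, 1 ≤ r → ∀ (V W : Type) [Fintype V] [Nonempty V] [Fintype W] [Nonempty W]
      (G : SimpleGraph V) (H : SimpleGraph W), thetaBar G = thetaBar H →
      thetaBar (genMycielskian r G) = thetaBar (genMycielskian r H)) := by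
  refine ⟨fun V _ _ G => isLeast_thetaBar G, fun r hr V _ _ G => thetaBar_genMycielskian hr G,
    fun r hr V W _ _ _ _ G H h => ?_⟩
  rw [thetaBar_genMycielskian hr, thetaBar_genMycielskian hr, h]

end Pool.Agent.Results.MP_8a180b_co.Determined
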